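import Pool.Agent.H19.CN.NRT
import Pool.Agent.H31.CN.T1

/-!
# The local numbers at other primes on sublattices (row HK2)
-/

set_option autoImplicit false

namespace Pool.Agent.H19.CN

open Pool.Agent.H31.CN

lemma dvd_mul_cop {p l : ℤ} (h : IsCoprime p l) (a : ℤ) : l ∣ p * a ↔ l ∣ a :=
  ⟨fun h1 => h.symm.dvd_of_dvd_mul_left h1, fun h1 => h1.mul_left p⟩

theorem pf_HK2 : T_HK2 := by
  rintro p l ⟨A, B, C⟩ ⟨x, y⟩ hp hl hlp
  have hcop : IsCoprime (p : ℤ) (l : ℤ) := cop_of_ne hp hl hlp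
  have hp0 : (p : ℤ) ≠ 0 := by exact_mod_cast hp.ne_zero
  simp only
  refine ⟨?_, ?_⟩
  · rintro ⟨A', rfl⟩ ⟨y', rfl⟩
    rw [Int.mul_ediv_cancel_left _ hp0, Int.mul_ediv_cancel_left _ hp0]
    have hval : val (A', B, (p : ℤ) * C) (x, y') * p = val ((p : ℤ) * A', B, C) (x, (p : ℤ) * y') := by
      simp only [val]; ring
    refine ⟨?_, hval⟩
    have hprt : prt l (A', B, (p : ℤ) * C) = prt l ((p : ℤ) * A', B, C) := by
      simp only [prt]
      rw [nrt_sub l hl.pos A' B ((p : ℤ) * C) ((p : ℤ) * A') B C p p 0 hcop hcop]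
      · simp only [dvd_mul_cop hcop]
      · exact ⟨0, by ring⟩
      · exact ⟨0, by ring⟩
      · exact ⟨0, by ring⟩
    simp only [nul]
    rw [hprt, ← hval, mul_comm (val (A', B, (p : ℤ) * C) (x, y')) (p : ℤ)]
    simp only [dvd_mul_cop hcop]
  · rintro j ⟨C', hC'⟩ ⟨x', hx'⟩
    rw [hC', hx', Int.mul_ediv_cancel_left _ hp0, Int.mul_ediv_cancel_left _ hp0]
    have hx : x = p * x' + j * y := by linarith
    have hval : val ((p : ℤ) * A, B + 2 * A * j, C') (x', y) * p = val (A, B, C) (x, y) := by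
      simp only [val]
      rw [hx]
      linear_combination (-y ^ 2) * hC'
    refine ⟨?_, hval⟩
    have hprt : prt l ((p : ℤ) * A, B + 2 * A * j, C') = prt l (A, B, C) := by
      simp only [prt]
      rw [nrt_sub l hl.pos A B C ((p : ℤ) * A) (B + 2 * A * j) C' p p j hcop hcop]
      · simp only [dvd_mul_cop hcop]
      · exact ⟨0, by ring⟩
      · exact ⟨0, by ring⟩
      · exact ⟨0, by linear_combination -hC'⟩
    simp only [nul]
    rw [hprt, ← hval, mul_comm (val ((p : ℤ) * A, B + 2 * A * j, C') (x', y)) (p : ℤ)]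
    have h1 : ((l : ℤ) ∣ x' ∧ (l : ℤ) ∣ y) ↔ ((l : ℤ) ∣ x ∧ (l : ℤ) ∣ y) := by
      constructor
      · rintro ⟨h1, h2⟩
        exact ⟨hx ▸ dvd_add (h1.mul_left _) (h2.mul_left _), h2⟩
      · rintro ⟨h1, h2⟩
        refine ⟨(dvd_mul_cop hcop x').1 ?_, h2⟩
        have e : (p : ℤ) * x' = x - j * y := hx'.symm
        rw [e]
        exact dvd_sub h1 (h2.mul_left _)
    simp only [dvd_mul_cop hcop, h1]

end Pool.Agent.H19.CN
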