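import Pool.Agent.H31.CN.T1

/-!
# The number of sublattices of index `p` that contain a vector (row HK3)
-/

set_option autoImplicit false

namespace Pool.Agent.H19.CN

open Pool.Agent.H31.CN

theorem pf_HK3 : T_HK3 := by
  rintro p ⟨A, B, C⟩ ⟨x, y⟩ hp
  have hpi : Prime (p : ℤ) := Nat.prime_iff_prime_int.1 hp
  simp only [nul, prt]
  by_cases hy : (p : ℤ) ∣ y
  · by_cases hx : (p : ℤ) ∣ x
    · rw [if_pos (⟨hx, hy⟩ : (p : ℤ) ∣ x ∧ (p : ℤ) ∣ y)]
      simp only [hy, and_true]
      congr 1
      rw [nrt]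
      congr 1
      refine Finset.filter_congr fun j _ => ?_
      exact ⟨fun h => h.1, fun h => ⟨h, dvd_sub hx (hy.mul_left _)⟩⟩
    · rw [if_neg (fun h : (p : ℤ) ∣ x ∧ (p : ℤ) ∣ y => hx h.1)]
      have h1 : (Finset.range p).filter (fun j : ℕ => (p : ℤ) ∣ A * (j : ℤ) ^ 2 + B * (j : ℤ) + C ∧
          (p : ℤ) ∣ x - j * y) = ∅ := by
        refine Finset.filter_eq_empty_iff.2 fun j _ h => hx ?_
        have h2 := dvd_add h.2 (hy.mul_left (j : ℤ))
        rwa [sub_add_cancel] at h2
      rw [h1, Finset.card_empty, add_zero]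
      have h2 : ((p : ℤ) ∣ A ∧ (p : ℤ) ∣ y) ↔ (p : ℤ) ∣ val (A, B, C) (x, y) := by
        simp only [val]
        constructor
        · rintro ⟨h1, h2⟩
          refine dvd_add (dvd_add (h1.mul_right _) (h2.mul_left _)) ?_
          rw [pow_two]
          exact (h2.mul_left _).mul_left _
        · intro h
          refine ⟨?_, hy⟩
          have h3 : (p : ℤ) ∣ B * x * y + C * y ^ 2 := by
            refine dvd_add (hy.mul_left _) ?_
            rw [pow_two]
            exact (hy.mul_left _).mul_left _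
          have h4 : (p : ℤ) ∣ A * x ^ 2 := by
            have h5 := dvd_sub h h3
            have e : A * x ^ 2 + B * x * y + C * y ^ 2 - (B * x * y + C * y ^ 2) = A * x ^ 2 := by
              ring
            rwa [e] at h5
          rcases hpi.dvd_or_dvd h4 with h5 | h5
          · exact h5
          · exact absurd (hpi.dvd_of_dvd_pow h5) hx
      simp only [h2]
  · rw [if_neg (fun h : (p : ℤ) ∣ A ∧ (p : ℤ) ∣ y => hy h.2),
      if_neg (fun h : (p : ℤ) ∣ x ∧ (p : ℤ) ∣ y => hy h.2), zero_add]
    -- the unique `j`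
    have hcop : IsCoprime y (p : ℤ) := by
      rw [isCoprime_comm]
      exact (Prime.coprime_iff_not_dvd hpi).2 hy
    obtain ⟨b, c, hbc⟩ := hcop
    have hp0 : (0 : ℤ) < p := by exact_mod_cast hp.pos
    obtain ⟨j0, hj0, hj0d⟩ : ∃ j : ℕ, j < p ∧ (p : ℤ) ∣ x - j * y := by
      refine ⟨((x * b) % p).toNat, ?_, ?_⟩
      · have := Int.emod_lt_of_pos (x * b) hp0
        have := Int.emod_nonneg (x * b) hp0.ne'
        omega
      · rw [Int.toNat_of_nonneg (Int.emod_nonneg _ hp0.ne')]
        have h1 : (p : ℤ) ∣ x * b - (x * b) % p := Int.dvd_self_sub_emod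
        have e : x - (x * b) % p * y = (x * b - (x * b) % p) * y + x * c * p := by
          linear_combination (-x) * hbc
        rw [e]
        exact dvd_add (h1.mul_right _) (dvd_mul_left _ _)
    have huniq : ∀ j : ℕ, j < p → (p : ℤ) ∣ x - j * y → j = j0 := by
      intro j hj hjd
      have h1 : (p : ℤ) ∣ ((j : ℤ) - j0) * y := by
        have h2 := dvd_sub hj0d hjd
        have e : x - j0 * y - (x - j * y) = ((j : ℤ) - j0) * y := by ring
        rwa [e] at h2
      have h3 : (p : ℤ) ∣ (j : ℤ) - j0 := (hpi.dvd_or_dvd h1).resolve_right hy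
      obtain ⟨t, ht⟩ := h3
      have h4 : |(j : ℤ) - j0| < p := by rw [abs_lt]; constructor <;> omega
      have h5 : (j : ℤ) - j0 = 0 := Int.eq_zero_of_abs_lt_dvd ⟨t, ht⟩ h4
      omega
    have hiff : (p : ℤ) ∣ A * (j0 : ℤ) ^ 2 + B * (j0 : ℤ) + C ↔ (p : ℤ) ∣ val (A, B, C) (x, y) := by
      obtain ⟨t, ht⟩ := hj0d
      have hx : x = j0 * y + p * t := by linarith
      have e : val (A, B, C) (x, y) = (A * (j0 : ℤ) ^ 2 + B * (j0 : ℤ) + C) * y ^ 2 +
          p * (A * (2 * j0 * y * t + p * t ^ 2) + B * t * y) := by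
        simp only [val]
        rw [hx]
        ring
      rw [e, Int.dvd_add_left (dvd_mul_right _ _)]
      constructor
      · intro h
        exact h.mul_right _
      · intro h
        rcases hpi.dvd_or_dvd h with h1 | h1
        · exact h1
        · exact absurd (hpi.dvd_of_dvd_pow h1) hy
    by_cases hv : (p : ℤ) ∣ val (A, B, C) (x, y)
    · rw [if_pos hv]
      rw [Finset.card_eq_one]
      refine ⟨j0, ?_⟩
      ext j
      simp only [Finset.mem_filter, Finset.mem_range, Finset.mem_singleton]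
      constructor
      · rintro ⟨h1, _, h3⟩
        exact huniq j h1 h3
      · rintro rfl
        exact ⟨hj0, hiff.2 hv, hj0d⟩
    · rw [if_neg hv, Finset.card_eq_zero]
      refine Finset.filter_eq_empty_iff.2 fun j hj h => hv ?_
      have := huniq j (Finset.mem_range.1 hj) h.2
      subst this
      exact hiff.1 h.1

end Pool.Agent.H19.CN
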