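import Pool.Agent.H31.CN.Defs

/-!
# Numbers of roots modulo `q`: substitutions
-/

set_option autoImplicit false

namespace Pool.Agent.H19.CN

open Pool.Agent.H31.CN

/-- The number of roots, in `ZMod q`. -/
theorem nrt_zmod (q : ℕ) [NeZero q] (A B C : ℤ) : nrt q A B C =
    (Finset.univ.filter (fun t : ZMod q => (A : ZMod q) * t ^ 2 + (B : ZMod q) * t +
      (C : ZMod q) = 0)).card := by
  classical
  have key : ∀ j : ℕ, ((q : ℤ) ∣ A * (j : ℤ) ^ 2 + B * (j : ℤ) + C) ↔
      (A : ZMod q) * (j : ZMod q) ^ 2 + (B : ZMod q) * (j : ZMod q) + (C : ZMod q) = 0 := by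
    intro j
    rw [← ZMod.intCast_zmod_eq_zero_iff_dvd]
    push_cast
    rfl
  rw [nrt]
  refine Finset.card_nbij' (fun j => (j : ZMod q)) (fun t => t.val) ?_ ?_ ?_ ?_
  · intro j hj
    have hj' := Finset.mem_filter.1 hj
    exact Finset.mem_filter.2 ⟨Finset.mem_univ _, (key j).1 hj'.2⟩
  · intro t ht
    have ht' := (Finset.mem_filter.1 ht).2
    refine Finset.mem_filter.2 ⟨Finset.mem_range.2 (ZMod.val_lt t), ?_⟩
    rw [key]
    simpa using ht'
  · intro j hj
    have hj' := Finset.mem_range.1 (Finset.mem_filter.1 hj).1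
    exact ZMod.val_cast_of_lt hj'
  · intro t _
    exact ZMod.natCast_zmod_val t

/-- Affine substitutions: if `w (A' t² + B' t + C') = A (u t + j)² + B (u t + j) + C` modulo `q`,
with `u`, `w` prime to `q`, then the numbers of roots agree. -/
theorem nrt_sub (q : ℕ) (hq : 0 < q) (A B C A' B' C' u w j : ℤ) (hu : IsCoprime u (q : ℤ))
    (hw : IsCoprime w (q : ℤ))
    (h2 : (q : ℤ) ∣ w * A' - A * u ^ 2) (h1 : (q : ℤ) ∣ w * B' - (2 * A * u * j + B * u))
    (h0 : (q : ℤ) ∣ w * C' - (A * j ^ 2 + B * j + C)) :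
    nrt q A' B' C' = nrt q A B C := by
  classical
  have : NeZero q := ⟨hq.ne'⟩
  have unit : ∀ a : ℤ, IsCoprime a (q : ℤ) → IsUnit (a : ZMod q) := by
    rintro a ⟨b, c, hbc⟩
    have h := congrArg (Int.cast : ℤ → ZMod q) hbc
    push_cast at h
    rw [ZMod.natCast_self, mul_zero, add_zero] at h
    exact IsUnit.of_mul_eq_one (b : ZMod q) (by rw [mul_comm]; exact h)
  have z2 : (w : ZMod q) * A' = A * (u : ZMod q) ^ 2 := by
    have h := (ZMod.intCast_zmod_eq_zero_iff_dvd _ q).2 h2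
    push_cast at h
    exact sub_eq_zero.1 h
  have z1 : (w : ZMod q) * B' = 2 * A * u * j + B * u := by
    have h := (ZMod.intCast_zmod_eq_zero_iff_dvd _ q).2 h1
    push_cast at h
    exact sub_eq_zero.1 h
  have z0 : (w : ZMod q) * C' = A * (j : ZMod q) ^ 2 + B * j + C := by
    have h := (ZMod.intCast_zmod_eq_zero_iff_dvd _ q).2 h0
    push_cast at h
    exact sub_eq_zero.1 h
  obtain ⟨U, hU⟩ := unit u hu
  have hpoly : ∀ t : ZMod q, (w : ZMod q) * ((A' : ZMod q) * t ^ 2 + B' * t + C') =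
      A * ((u : ZMod q) * t + j) ^ 2 + B * ((u : ZMod q) * t + j) + C := by
    intro t
    linear_combination t ^ 2 * z2 + t * z1 + z0
  have hiff : ∀ t : ZMod q, (A' : ZMod q) * t ^ 2 + B' * t + C' = 0 ↔
      A * ((u : ZMod q) * t + j) ^ 2 + B * ((u : ZMod q) * t + j) + C = 0 := by
    intro t
    rw [← hpoly t]
    exact ((unit w hw).mul_right_eq_zero).symm
  rw [nrt_zmod, nrt_zmod]
  refine Finset.card_nbij' (fun t => (u : ZMod q) * t + j)
    (fun s => ((U⁻¹ : (ZMod q)ˣ) : ZMod q) * (s - j)) ?_ ?_ ?_ ?_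
  · intro t ht
    exact Finset.mem_filter.2 ⟨Finset.mem_univ _, (hiff t).1 (Finset.mem_filter.1 ht).2⟩
  · intro s hs
    refine Finset.mem_filter.2 ⟨Finset.mem_univ _, (hiff _).2 ?_⟩
    have e : (u : ZMod q) * (((U⁻¹ : (ZMod q)ˣ) : ZMod q) * (s - j)) + j = s := by
      rw [← hU, ← mul_assoc, Units.mul_inv, one_mul]; ring
    rw [e]
    exact (Finset.mem_filter.1 hs).2
  · intro t _
    simp only
    rw [← hU]
    have e : (U : ZMod q) * t + j - j = U * t := by ring
    rw [e, ← mul_assoc, Units.inv_mul, one_mul]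
  · intro s _
    simp only
    rw [← hU, ← mul_assoc, Units.mul_inv, one_mul]
    ring

/-- The number of roots depends on the coefficients modulo `q` only. -/
theorem nrt_congr (q : ℕ) (hq : 0 < q) (A B C A' B' C' : ℤ) (h2 : (q : ℤ) ∣ A' - A)
    (h1 : (q : ℤ) ∣ B' - B) (h0 : (q : ℤ) ∣ C' - C) : nrt q A' B' C' = nrt q A B C := by
  refine nrt_sub q hq A B C A' B' C' 1 1 0 isCoprime_one_left isCoprime_one_left ?_ ?_ ?_
  · simpa using h2
  · simpa using h1
  · simpa using h0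

/-- Distinct primes are coprime. -/
lemma cop_of_ne {p l : ℕ} (hp : p.Prime) (hl : l.Prime) (h : l ≠ p) : IsCoprime (p : ℤ) (l : ℤ) :=
  Int.isCoprime_iff_gcd_eq_one.2 (by
    rw [Int.gcd_natCast_natCast]
    exact (Nat.coprime_primes hp hl).2 (Ne.symm h))

end Pool.Agent.H19.CN
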