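import Pool.Agent.H31.CN.T5

/-!
# The optimal polynomial, approximately (row OPT)
-/

set_option autoImplicit false

open MeasureTheory Set Filter Topology
open scoped Real

namespace Pool.Agent.H19.CN

open Pool.Agent.H31.CN

/-- Antiderivatives of polynomials divisible by `X ^ d`. -/
lemma exists_antider (d : ℕ) (g : Polynomial ℝ) : ∃ g' : Polynomial ℝ,
    Polynomial.derivative (Polynomial.X ^ (d + 1) * g') = Polynomial.X ^ d * g := by
  induction g using Polynomial.induction_on' with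
  | add p q hp hq =>
    obtain ⟨p', hp'⟩ := hp
    obtain ⟨q', hq'⟩ := hq
    refine ⟨p' + q', ?_⟩
    rw [mul_add, Polynomial.derivative_add, hp', hq', mul_add]
  | monomial k c =>
    refine ⟨Polynomial.monomial k (c / ((d : ℝ) + 1 + k)), ?_⟩
    have h0 : ((d : ℝ) + 1 + k) ≠ 0 := by positivity
    rw [Polynomial.X_pow_mul_monomial, Polynomial.X_pow_mul_monomial,
      Polynomial.derivative_monomial]
    have e1 : k + (d + 1) - 1 = k + d := by omega
    rw [e1]
    congr 1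
    push_cast
    field_simp
    ring

lemma exists_double (h : Polynomial ℝ) (hh : Polynomial.X ^ 3 ∣ h) : ∃ P : Polynomial ℝ,
    Polynomial.X ^ 5 ∣ P ∧ P.derivative.derivative = h := by
  obtain ⟨g, rfl⟩ := hh
  obtain ⟨g1, h1⟩ := exists_antider 3 g
  obtain ⟨g2, h2⟩ := exists_antider 4 g1
  exact ⟨Polynomial.X ^ 5 * g2, dvd_mul_right _ _, by rw [h2, h1]⟩

/-- Integration by parts, twice. -/
lemma int_parts (P : Polynomial ℝ) (κ : ℝ) (hP : Polynomial.X ^ 5 ∣ P) :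
    ∫ t in (0 : ℝ)..1, (1 + κ - t) * P.derivative.derivative.eval t =
      P.eval 1 + κ * P.derivative.eval 1 := by
  have hder : ∀ t : ℝ, HasDerivAt (fun t : ℝ => (1 + κ - t) * P.derivative.eval t + P.eval t)
      ((1 + κ - t) * P.derivative.derivative.eval t) t := by
    intro t
    have h1 : HasDerivAt (fun t : ℝ => 1 + κ - t) (-1) t := by
      simpa using (hasDerivAt_id t).const_sub (1 + κ)
    have h2 := (h1.mul (P.derivative.hasDerivAt t)).add (P.hasDerivAt t)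
    refine h2.congr_deriv ?_
    ring
  rw [intervalIntegral.integral_eq_sub_of_hasDerivAt (fun t _ => hder t)]
  · obtain ⟨g, rfl⟩ := hP
    have h0 : (Polynomial.X ^ 5 * g).eval 0 = (0 : ℝ) := by simp
    have h1 : (Polynomial.derivative (Polynomial.X ^ 5 * g)).eval 0 = (0 : ℝ) := by
      simp [Polynomial.derivative_mul]
    rw [h0, h1]
    ring
  · apply Continuous.intervalIntegrable
    fun_prop

lemma tendsto_int : Tendsto (fun n : ℕ => ∫ t in (0 : ℝ)..1, (1 - t ^ 3) ^ n) atTop (𝓝 0) := by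
  have h := intervalIntegral.tendsto_integral_filter_of_dominated_convergence
    (μ := volume) (a := (0 : ℝ)) (b := 1) (l := atTop) (F := fun (n : ℕ) (t : ℝ) => (1 - t ^ 3) ^ n)
    (f := fun _ => (0 : ℝ)) (fun _ => (1 : ℝ)) ?_ ?_ ?_ ?_
  · simpa using h
  · refine Eventually.of_forall fun n => ?_
    exact (by fun_prop : Continuous fun t : ℝ => (1 - t ^ 3) ^ n).aestronglyMeasurable
  · refine Eventually.of_forall fun n => Eventually.of_forall fun t ht => ?_
    rw [uIoc_of_le zero_le_one] at ht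
    have h3 : t ^ 3 ≤ 1 := pow_le_one₀ ht.1.le ht.2
    have h4 : 0 < t ^ 3 := pow_pos ht.1 3
    rw [Real.norm_eq_abs, abs_of_nonneg (pow_nonneg (by linarith) n)]
    exact pow_le_one₀ (by linarith) (by linarith)
  · exact intervalIntegrable_const
  · refine Eventually.of_forall fun t ht => ?_
    rw [uIoc_of_le zero_le_one] at ht
    have h3 : t ^ 3 ≤ 1 := pow_le_one₀ ht.1.le ht.2
    have h4 : 0 < t ^ 3 := pow_pos ht.1 3
    exact tendsto_pow_atTop_nhds_zero_of_lt_one (by linarith) (by linarith)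

/-- The case of small `ε`. -/
lemma opt_small (ε : ℝ) (hε : 0 < ε) (hε2 : ε ≤ 1 / 2) :
    ∃ (P : Polynomial ℝ) (θ : ℝ), Polynomial.X ^ 5 ∣ P ∧ 0 < θ ∧ θ < 1 / 4 ∧
    0 < Mt P (1 / (2 * θ)) ∧
    (19 / 27 - ε) * Mt P (1 / (2 * θ)) ≤ (P.eval 1 + 1 / (2 * θ) * P.derivative.eval 1) ^ 2 := by
  obtain ⟨n, hn⟩ : ∃ n : ℕ, ∫ t in (0 : ℝ)..1, (1 - t ^ 3) ^ n ≤ 9 * ε / 16 := by
    have h := (tendsto_int.eventually (gt_mem_nhds (by positivity : (0 : ℝ) < 9 * ε / 16))).exists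
    obtain ⟨n, hn⟩ := h
    exact ⟨n, hn.le⟩
  set κ : ℝ := 2 + ε with hκ
  have hdvd : (Polynomial.X ^ 3 : Polynomial ℝ) ∣
      (Polynomial.C (1 + κ) - Polynomial.X) * (1 - (1 - Polynomial.X ^ 3) ^ n) := by
    refine Dvd.dvd.mul_left ?_ _
    have h := sub_dvd_pow_sub_pow (1 : Polynomial ℝ) (1 - Polynomial.X ^ 3) n
    rw [one_pow] at h
    have e : (1 : Polynomial ℝ) - (1 - Polynomial.X ^ 3) = Polynomial.X ^ 3 := by ring
    rwa [e] at h
  obtain ⟨P, hP5, hP⟩ := exists_double _ hdvd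
  have hPev : ∀ t : ℝ, P.derivative.derivative.eval t = (1 + κ - t) * (1 - (1 - t ^ 3) ^ n) := by
    intro t
    rw [hP]
    simp
  have hθ : 1 / (2 * (1 / (2 * κ))) = κ := by
    have : κ ≠ 0 := by rw [hκ]; positivity
    field_simp
  refine ⟨P, 1 / (2 * κ), hP5, by rw [hκ]; positivity, ?_, ?_⟩
  · rw [div_lt_div_iff₀ (by rw [hκ]; positivity) (by norm_num), hκ]
    linarith
  rw [hθ]
  have ha := int_parts P κ hP5
  set a := P.eval 1 + κ * P.derivative.eval 1 with haa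
  have hJ : ∫ t in (0 : ℝ)..1, P.derivative.derivative.eval t ^ 2 ≤ a := by
    rw [← ha]
    apply intervalIntegral.integral_mono_on zero_le_one
    · apply Continuous.intervalIntegrable; fun_prop
    · apply Continuous.intervalIntegrable; fun_prop
    · intro t ht
      rw [hPev]
      have h3 : t ^ 3 ≤ 1 := pow_le_one₀ ht.1 ht.2
      have h4 : 0 ≤ t ^ 3 := pow_nonneg ht.1 3
      have h5 : 0 ≤ (1 - t ^ 3) ^ n := pow_nonneg (by linarith) n
      have h6 : (1 - t ^ 3) ^ n ≤ 1 := pow_le_one₀ (by linarith) (by linarith)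
      have h7 : 0 ≤ (1 + κ - t) ^ 2 := sq_nonneg _
      have h8 : (1 - (1 - t ^ 3) ^ n) ^ 2 ≤ 1 - (1 - t ^ 3) ^ n := by nlinarith
      calc ((1 + κ - t) * (1 - (1 - t ^ 3) ^ n)) ^ 2 =
          (1 + κ - t) ^ 2 * (1 - (1 - t ^ 3) ^ n) ^ 2 := by ring
        _ ≤ (1 + κ - t) ^ 2 * (1 - (1 - t ^ 3) ^ n) := mul_le_mul_of_nonneg_left h8 h7
        _ = (1 + κ - t) * ((1 + κ - t) * (1 - (1 - t ^ 3) ^ n)) := by ring
  have hJ0 : 0 ≤ ∫ t in (0 : ℝ)..1, P.derivative.derivative.eval t ^ 2 :=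
    intervalIntegral.integral_nonneg zero_le_one fun t _ => sq_nonneg _
  have hI : ∫ t in (0 : ℝ)..1, ((1 + κ - t) ^ 2 - 16 * (1 - t ^ 3) ^ n) =
      (1 + 3 * κ + 3 * κ ^ 2) / 3 - 16 * ∫ t in (0 : ℝ)..1, (1 - t ^ 3) ^ n := by
    rw [intervalIntegral.integral_sub, intervalIntegral.integral_const_mul]
    · congr 1
      have hder : ∀ t : ℝ, HasDerivAt (fun t : ℝ => -((1 + κ - t) ^ 3) / 3) ((1 + κ - t) ^ 2) t := by
        intro t
        have h1 : HasDerivAt (fun t : ℝ => 1 + κ - t) (-1) t := by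
          simpa using (hasDerivAt_id t).const_sub (1 + κ)
        have h2 := ((h1.pow 3).neg).div_const 3
        refine h2.congr_deriv ?_
        norm_num
      rw [intervalIntegral.integral_eq_sub_of_hasDerivAt (fun t _ => hder t)]
      · ring
      · apply Continuous.intervalIntegrable; fun_prop
    · apply Continuous.intervalIntegrable; fun_prop
    · apply Continuous.intervalIntegrable; fun_prop
  have hage : (1 + 3 * κ + 3 * κ ^ 2) / 3 - 16 * ∫ t in (0 : ℝ)..1, (1 - t ^ 3) ^ n ≤ a := by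
    rw [← hI, ← ha]
    apply intervalIntegral.integral_mono_on zero_le_one
    · apply Continuous.intervalIntegrable; fun_prop
    · apply Continuous.intervalIntegrable; fun_prop
    · intro t ht
      rw [hPev]
      have h3 : t ^ 3 ≤ 1 := pow_le_one₀ ht.1 ht.2
      have h5 : 0 ≤ (1 - t ^ 3) ^ n := pow_nonneg (by linarith) n
      have h7 : (1 + κ - t) ^ 2 ≤ 16 := by
        have h8 : 1 + κ - t ≤ 4 := by rw [hκ]; linarith [ht.1]
        have h9 : 0 ≤ 1 + κ - t := by rw [hκ]; linarith [ht.2]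
        nlinarith
      nlinarith
  have hκ3 : κ ^ 3 ≤ 8 + 27 * ε := by
    rw [hκ]; nlinarith [mul_pos hε hε, mul_pos (mul_pos hε hε) hε]
  have ha1 : 19 / 3 - 9 * ε ≤ a := by
    have : (19 : ℝ) / 3 ≤ (1 + 3 * κ + 3 * κ ^ 2) / 3 := by
      rw [hκ]; nlinarith
    linarith
  have ha0 : 0 < a := by linarith
  set J := ∫ t in (0 : ℝ)..1, P.derivative.derivative.eval t ^ 2 with hJdef
  have hMt : Mt P κ = a ^ 2 + κ ^ 3 / 3 * J := rfl
  have hκ0 : 0 < κ ^ 3 := by rw [hκ]; positivity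
  rw [hMt]
  refine ⟨by positivity, ?_⟩
  have hc : 0 ≤ 19 / 27 - ε := by linarith
  have h1 : κ ^ 3 / 3 * J ≤ (8 + 27 * ε) / 3 * a :=
    mul_le_mul (by linarith) hJ hJ0 (by positivity)
  have h2 : (19 / 27 - ε) * (a ^ 2 + κ ^ 3 / 3 * J) ≤
      (19 / 27 - ε) * (a ^ 2 + (8 + 27 * ε) / 3 * a) :=
    mul_le_mul_of_nonneg_left (by linarith) hc
  refine h2.trans ?_
  have h3 : (19 / 27 - ε) * (a + (8 + 27 * ε) / 3) ≤ a := by
    nlinarith
  calc (19 / 27 - ε) * (a ^ 2 + (8 + 27 * ε) / 3 * a) =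
      ((19 / 27 - ε) * (a + (8 + 27 * ε) / 3)) * a := by ring
    _ ≤ a * a := mul_le_mul_of_nonneg_right h3 ha0.le
    _ = a ^ 2 := by ring

theorem pf_OPT : T_OPT := by
  intro ε hε
  obtain ⟨P, θ, h1, h2, h3, h4, h5⟩ := opt_small (min ε (1 / 2)) (lt_min hε (by norm_num))
    (min_le_right _ _)
  refine ⟨P, θ, h1, h2, h3, h4, le_trans ?_ h5⟩
  apply mul_le_mul_of_nonneg_right _ h4.le
  linarith [min_le_left ε (1 / 2)]

end Pool.Agent.H19.CN
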