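import Pool.Agent.H19.CN.NRT
import Pool.Agent.H31.CN.T1

/-!
# The local weights under the Hecke operator at another prime (row WC1)
-/

set_option autoImplicit false

namespace Pool.Agent.H19.CN

open Pool.Agent.H31.CN

lemma natdvd_cop {p l : ℕ} (h : Nat.Coprime l p) (a : ℕ) : l ∣ p * a ↔ l ∣ a :=
  h.dvd_mul_left

theorem pf_WC1 : T_WC1 := by
  intro p l A B C e hp hl hlp hA
  have hcop : IsCoprime (p : ℤ) (l : ℤ) := cop_of_ne hp hl hlp
  have hcop2 : IsCoprime (p : ℤ) ((l ^ 2 : ℕ) : ℤ) := by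
    push_cast
    exact hcop.pow_right
  have hn : Nat.Coprime l p := (Nat.coprime_primes hl hp).2 hlp
  have hn2 : Nat.Coprime (l ^ 2) p := hn.pow_left 2
  have hp0 : (p : ℤ) ≠ 0 := by exact_mod_cast hp.ne_zero
  have hl2 : 0 < l ^ 2 := pow_pos hl.pos 2
  refine ⟨?_, ?_⟩
  · rintro ⟨A', rfl⟩
    rw [Nat.mul_div_cancel_left _ hp.pos]
    have r1 : nrt l A' B ((p : ℤ) * C) = nrt l ((p * A' : ℕ) : ℤ) B C := by
      symm
      apply nrt_sub l hl.pos A' B ((p : ℤ) * C) ((p * A' : ℕ) : ℤ) B C p p 0 hcop hcop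
      · exact ⟨0, by push_cast; ring⟩
      · exact ⟨0, by ring⟩
      · exact ⟨0, by ring⟩
    have r2 : nrt (l ^ 2) A' B ((p : ℤ) * C) = nrt (l ^ 2) ((p * A' : ℕ) : ℤ) B C := by
      symm
      apply nrt_sub (l ^ 2) hl2 A' B ((p : ℤ) * C) ((p * A' : ℕ) : ℤ) B C p p 0 hcop2 hcop2
      · exact ⟨0, by push_cast; ring⟩
      · exact ⟨0, by ring⟩
      · exact ⟨0, by ring⟩
    refine ⟨?_, ?_⟩
    · simp only [N1, r1, natdvd_cop hn]
    · simp only [N2, r1, r2, natdvd_cop hn, natdvd_cop hn2]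
      have r3 : (if l ∣ A' ∧ l ∣ e then nrt l ((A' / l : ℕ) : ℤ) B ((l : ℤ) * ((p : ℤ) * C)) else 0) =
          (if l ∣ A' ∧ l ∣ e then nrt l ((p * A' / l : ℕ) : ℤ) B ((l : ℤ) * C) else 0) := by
        by_cases h : l ∣ A' ∧ l ∣ e
        · rw [if_pos h, if_pos h]
          obtain ⟨⟨A'', rfl⟩, _⟩ := h
          have e1 : p * (l * A'') / l = p * A'' := by
            rw [Nat.mul_left_comm, Nat.mul_div_cancel_left _ hl.pos]
          rw [e1, Nat.mul_div_cancel_left _ hl.pos]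
          symm
          apply nrt_sub l hl.pos _ _ _ _ _ _ p p 0 hcop hcop
          · exact ⟨0, by push_cast; ring⟩
          · exact ⟨0, by ring⟩
          · exact ⟨0, by ring⟩
        · rw [if_neg h, if_neg h]
      rw [r3]
  · rintro j ⟨e', rfl⟩ ⟨C', hC'⟩
    rw [hC', Int.mul_ediv_cancel_left _ hp0, Nat.mul_div_cancel_left _ hp.pos]
    have r1 : nrt l ((p * A : ℕ) : ℤ) (B + 2 * A * j) C' = nrt l A B C := by
      apply nrt_sub l hl.pos A B C ((p * A : ℕ) : ℤ) (B + 2 * A * j) C' p p j hcop hcop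
      · exact ⟨0, by push_cast; ring⟩
      · exact ⟨0, by ring⟩
      · exact ⟨0, by linear_combination -hC'⟩
    have r2 : nrt (l ^ 2) ((p * A : ℕ) : ℤ) (B + 2 * A * j) C' = nrt (l ^ 2) A B C := by
      apply nrt_sub (l ^ 2) hl2 A B C ((p * A : ℕ) : ℤ) (B + 2 * A * j) C' p p j hcop2 hcop2
      · exact ⟨0, by push_cast; ring⟩
      · exact ⟨0, by ring⟩
      · exact ⟨0, by linear_combination -hC'⟩
    refine ⟨?_, ?_⟩
    · simp only [N1, r1, natdvd_cop hn]
    · simp only [N2, r1, r2, natdvd_cop hn, natdvd_cop hn2]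
      have r3 : (if l ∣ A ∧ l ∣ e' then
            nrt l ((p * A / l : ℕ) : ℤ) (B + 2 * A * j) ((l : ℤ) * C') else 0) =
          (if l ∣ A ∧ l ∣ e' then nrt l ((A / l : ℕ) : ℤ) B ((l : ℤ) * C) else 0) := by
        by_cases h : l ∣ A ∧ l ∣ e'
        · rw [if_pos h, if_pos h]
          obtain ⟨⟨A'', rfl⟩, _⟩ := h
          have e1 : p * (l * A'') / l = p * A'' := by
            rw [Nat.mul_left_comm, Nat.mul_div_cancel_left _ hl.pos]
          rw [e1, Nat.mul_div_cancel_left _ hl.pos]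
          apply nrt_sub l hl.pos _ _ _ _ _ _ p p 0 hcop hcop
          · exact ⟨0, by push_cast; ring⟩
          · exact ⟨2 * A'' * j * p, by push_cast; ring⟩
          · exact ⟨p * C' - C, by ring⟩
        · rw [if_neg h, if_neg h]
      rw [r3]

end Pool.Agent.H19.CN
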