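import Pool.Agent.H31.CN.T1

/-!
# The local weights under the Hecke operator at the same prime (row WC2)
-/

set_option autoImplicit false

namespace Pool.Agent.H19.CN

open Pool.Agent.H31.CN

/-- The roots modulo `p ^ 2` above the roots modulo `p`. -/
theorem sum_nrt_sq (p : ℕ) (hp : 0 < p) (A B C : ℤ) :
    ∑ j ∈ (Finset.range p).filter (fun j : ℕ => (p : ℤ) ∣ A * (j : ℤ) ^ 2 + B * (j : ℤ) + C),
      nrt p (p * A) (B + 2 * A * j) ((A * (j : ℤ) ^ 2 + B * (j : ℤ) + C) / p) =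
    nrt (p ^ 2) A B C := by
  have hp0 : (p : ℤ) ≠ 0 := by exact_mod_cast hp.ne'
  rw [nrt, Finset.card_eq_sum_card_fiberwise (f := fun k => k % p)
    (t := (Finset.range p).filter (fun j : ℕ => (p : ℤ) ∣ A * (j : ℤ) ^ 2 + B * (j : ℤ) + C))]
  · refine Finset.sum_congr rfl fun j hj => ?_
    obtain ⟨hjp, C', hC'⟩ := Finset.mem_filter.1 hj
    have hjp' := Finset.mem_range.1 hjp
    rw [hC', Int.mul_ediv_cancel_left _ hp0, nrt]
    have key : ∀ t : ℕ, (p : ℤ) ∣ p * A * (t : ℤ) ^ 2 + (B + 2 * A * j) * (t : ℤ) + C' ↔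
        ((p ^ 2 : ℕ) : ℤ) ∣ A * ((j + p * t : ℕ) : ℤ) ^ 2 + B * ((j + p * t : ℕ) : ℤ) + C := by
      intro t
      have e : A * ((j + p * t : ℕ) : ℤ) ^ 2 + B * ((j + p * t : ℕ) : ℤ) + C =
          p * (p * A * (t : ℤ) ^ 2 + (B + 2 * A * j) * (t : ℤ) + C') := by
        push_cast
        linear_combination hC'
      have e' : ((p ^ 2 : ℕ) : ℤ) = p * p := by push_cast; ring
      rw [e, e', mul_dvd_mul_iff_left hp0]
    refine Finset.card_nbij' (fun t => j + p * t) (fun k => k / p) ?_ ?_ ?_ ?_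
    · intro t ht
      obtain ⟨h1, h2⟩ := Finset.mem_filter.1 ht
      have h1' := Finset.mem_range.1 h1
      refine Finset.mem_filter.2 ⟨Finset.mem_filter.2 ⟨Finset.mem_range.2 ?_, (key t).1 h2⟩, ?_⟩
      · nlinarith
      · simp only
        rw [Nat.add_mul_mod_self_left]
        exact Nat.mod_eq_of_lt hjp'
    · intro k hk
      obtain ⟨h1, h2⟩ := Finset.mem_filter.1 hk
      obtain ⟨h3, h4⟩ := Finset.mem_filter.1 h1
      have h3' := Finset.mem_range.1 h3
      have hkk : j + p * (k / p) = k := by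
        rw [← h2]; exact Nat.mod_add_div k p
      refine Finset.mem_filter.2 ⟨Finset.mem_range.2 ?_, (key _).2 ?_⟩
      · rw [Nat.div_lt_iff_lt_mul hp, ← pow_two]; exact h3'
      · rw [hkk]; exact h4
    · intro t ht
      simp only
      rw [Nat.add_mul_div_left _ _ hp, Nat.div_eq_of_lt hjp', zero_add]
    · intro k hk
      obtain ⟨_, h2⟩ := Finset.mem_filter.1 hk
      simp only at h2 ⊢
      rw [← h2]; exact Nat.mod_add_div k p
  · intro k hk
    obtain ⟨h1, h2⟩ := Finset.mem_filter.1 hk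
    refine Finset.mem_filter.2 ⟨Finset.mem_range.2 (Nat.mod_lt _ hp), ?_⟩
    have h3 : (p : ℤ) ∣ A * (k : ℤ) ^ 2 + B * (k : ℤ) + C :=
      (by rw [Nat.cast_pow, pow_two]; exact dvd_mul_right _ _ : (p : ℤ) ∣ ((p ^ 2 : ℕ) : ℤ)).trans h2
    have h4 : (k : ℤ) = ((k % p : ℕ) : ℤ) + p * ((k / p : ℕ) : ℤ) := by
      exact_mod_cast (Nat.mod_add_div k p).symm
    have e : A * ((k % p : ℕ) : ℤ) ^ 2 + B * ((k % p : ℕ) : ℤ) + C =
        (A * (k : ℤ) ^ 2 + B * (k : ℤ) + C) - p * ((k / p : ℕ) *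
          (A * (2 * ((k % p : ℕ) : ℤ) + p * ((k / p : ℕ) : ℤ)) + B)) := by
      rw [h4]; ring_nf
    rw [e]
    exact dvd_sub h3 (dvd_mul_right _ _)

theorem pf_WC2 : T_WC2 := by
  intro p A B C e hp _
  refine ⟨rfl, ?_⟩
  simp only [N1, N2]
  have hp0 := hp.pos
  have h1 : (if p ∣ A then (if p ∣ A / p then 1 else 0) +
      (if p ∣ e then nrt p ((A / p : ℕ) : ℤ) B ((p : ℤ) * C) else 0) else 0) =
      (if p ^ 2 ∣ A then 1 else 0) +
        (if p ∣ A ∧ p ∣ e then nrt p ((A / p : ℕ) : ℤ) B ((p : ℤ) * C) else 0) := by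
    by_cases hA : p ∣ A
    · have e2 : p ∣ A / p ↔ p ^ 2 ∣ A := by
        obtain ⟨A', rfl⟩ := hA
        rw [Nat.mul_div_cancel_left _ hp0, pow_two]
        exact (Nat.mul_dvd_mul_iff_left hp0).symm
      simp only [hA, if_true, e2, true_and]
    · have e3 : ¬ p ^ 2 ∣ A := fun h => hA ((dvd_pow_self p two_ne_zero).trans h)
      simp only [hA, if_false, e3, false_and]
  have h2 : (if p ∣ e then ∑ j ∈ (Finset.range p).filter
        (fun j : ℕ => (p : ℤ) ∣ A * (j : ℤ) ^ 2 + B * (j : ℤ) + C),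
        ((if p ∣ p * A then 1 else 0) + (if p ∣ e / p then nrt p ((p * A : ℕ) : ℤ)
          (B + 2 * A * j) ((A * (j : ℤ) ^ 2 + B * (j : ℤ) + C) / p) else 0)) else 0) =
      (if p ∣ e then nrt p A B C else 0) + (if p ^ 2 ∣ e then nrt (p ^ 2) A B C else 0) := by
    by_cases he : p ∣ e
    · obtain ⟨e', rfl⟩ := he
      have e2 : p ∣ e' ↔ p ^ 2 ∣ p * e' := by
        rw [pow_two]
        exact (Nat.mul_dvd_mul_iff_left hp0).symm
      simp only [dvd_mul_right, if_true, Nat.mul_div_cancel_left _ hp0]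
      rw [Finset.sum_add_distrib, Finset.sum_const, smul_eq_mul, mul_one]
      congr 1
      by_cases h : p ∣ e'
      · rw [if_pos (e2.1 h), ← sum_nrt_sq p hp0]
        refine Finset.sum_congr rfl fun j _ => ?_
        rw [if_pos h]
        push_cast
        rfl
      · rw [if_neg (fun h' => h (e2.2 h'))]
        refine Finset.sum_eq_zero fun j _ => ?_
        rw [if_neg h]
    · have e3 : ¬ p ^ 2 ∣ e := fun h => he ((dvd_pow_self p two_ne_zero).trans h)
      simp only [he, if_false, e3]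
  rw [h1, h2]
  ring

end Pool.Agent.H19.CN
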