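import Pool.Agent.H19.CN.NRT
import Pool.Agent.H31.CN.T4

/-!
# The weight at the small primes is admissible (row WDN)
-/

set_option autoImplicit false

namespace Pool.Agent.H19.CN

open Pool.Agent.H31.CN

lemma N1_congr {p : ℕ} (hp : 0 < p) (A e : ℕ) {B C B' C' : ℤ} (hB : (p : ℤ) ∣ B' - B)
    (hC : (p : ℤ) ∣ C' - C) : N1 p A B' C' e = N1 p A B C e := by
  rw [N1, N1, nrt_congr p hp A B C A B' C' (by simp) hB hC]

lemma N2_congr {p : ℕ} (hp : 0 < p) (A e : ℕ) {B C B' C' : ℤ} (hB : ((p ^ 2 : ℕ) : ℤ) ∣ B' - B)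
    (hC : ((p ^ 2 : ℕ) : ℤ) ∣ C' - C) : N2 p A B' C' e = N2 p A B C e := by
  have hpp : (p : ℤ) ∣ ((p ^ 2 : ℕ) : ℤ) := by
    push_cast; exact dvd_pow_self _ two_ne_zero
  have hB1 := hpp.trans hB
  have hC1 := hpp.trans hC
  rw [N2, N2, nrt_congr p hp A B C A B' C' (by simp) hB1 hC1,
    nrt_congr (p ^ 2) (pow_pos hp 2) A B C A B' C' (by simp) hB hC,
    nrt_congr p hp ((A / p : ℕ) : ℤ) B (p * C) ((A / p : ℕ) : ℤ) B' (p * C') (by simp) hB1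
      ⟨C' - C, by ring⟩]

lemma N1_shift {p : ℕ} (hp : 0 < p) (A e : ℕ) (B C : ℤ) :
    N1 p A (B + 2 * A) (A + B + C) e = N1 p A B C e := by
  rw [N1, N1, nrt_sub p hp A B C A (B + 2 * A) (A + B + C) 1 1 1 isCoprime_one_left
    isCoprime_one_left ⟨0, by ring⟩ ⟨0, by ring⟩ ⟨0, by ring⟩]

lemma N2_shift {p : ℕ} (hp : 0 < p) (A e : ℕ) (B C : ℤ) :
    N2 p A (B + 2 * A) (A + B + C) e = N2 p A B C e := by
  rw [N2, N2, nrt_sub p hp A B C A (B + 2 * A) (A + B + C) 1 1 1 isCoprime_one_left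
    isCoprime_one_left ⟨0, by ring⟩ ⟨0, by ring⟩ ⟨0, by ring⟩,
    nrt_sub (p ^ 2) (pow_pos hp 2) A B C A (B + 2 * A) (A + B + C) 1 1 1 isCoprime_one_left
    isCoprime_one_left ⟨0, by ring⟩ ⟨0, by ring⟩ ⟨0, by ring⟩]
  have h : (if p ∣ A ∧ p ∣ e then
      nrt p ((A / p : ℕ) : ℤ) (B + 2 * A) ((p : ℤ) * (A + B + C)) else 0) =
      (if p ∣ A ∧ p ∣ e then nrt p ((A / p : ℕ) : ℤ) B ((p : ℤ) * C) else 0) := by
    by_cases h : p ∣ A ∧ p ∣ e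
    · rw [if_pos h, if_pos h]
      have hA : (p : ℤ) ∣ (A : ℤ) := Int.natCast_dvd_natCast.2 h.1
      apply nrt_congr p hp
      · simp
      · have e : B + 2 * (A : ℤ) - B = 2 * A := by ring
        rw [e]
        exact hA.mul_left _
      · exact ⟨A + B, by ring⟩
    · rw [if_neg h, if_neg h]
  rw [h]

lemma chi_congr {p : ℕ} (hp : 0 < p) {Δ Δ' : ℤ} (h8 : (8 : ℤ) ∣ Δ' - Δ)
    (hpd : (p : ℤ) ∣ Δ' - Δ) : chi p Δ' = chi p Δ := by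
  rw [chi, chi]
  have h1 : Δ' % 8 = Δ % 8 := by omega
  rw [h1, nrt_congr p hp 1 0 Δ 1 0 Δ' (by simp) (by simp) hpd]

lemma good_congr {N : ℕ} {Δ Δ' : ℤ} (h : ((8 * N ^ 2 : ℕ) : ℤ) ∣ Δ' - Δ) :
    good N Δ' ↔ good N Δ := by
  have h8 : (8 : ℤ) ∣ Δ' - Δ :=
    (by push_cast; exact dvd_mul_right _ _ : (8 : ℤ) ∣ ((8 * N ^ 2 : ℕ) : ℤ)).trans h
  have h4 : Δ' % 4 = 3 ↔ Δ % 4 = 3 := by omega
  rw [good, good, h4]
  refine and_congr_right fun _ => ?_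
  refine forall_congr' fun p => forall_congr' fun hp => imp_congr_right fun _ => not_congr ?_
  have hpN : (p : ℤ) ^ 2 ∣ ((8 * N ^ 2 : ℕ) : ℤ) := by
    push_cast
    exact (pow_dvd_pow_of_dvd (Int.natCast_dvd_natCast.2 (Nat.dvd_of_mem_primeFactors hp)) 2).mul_left _
  have h1 := hpN.trans h
  have e : Δ' = (Δ' - Δ) + Δ := by ring
  rw [e]
  exact (Int.dvd_add_right h1)

lemma an_congr {N : ℕ} (n : ℕ) {Δ Δ' : ℤ} (h : ((8 * N ^ 2 : ℕ) : ℤ) ∣ Δ' - Δ) :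
    an N n Δ' = an N n Δ := by
  have h8 : (8 : ℤ) ∣ Δ' - Δ :=
    (by push_cast; exact dvd_mul_right _ _ : (8 : ℤ) ∣ ((8 * N ^ 2 : ℕ) : ℤ)).trans h
  rw [an, an]
  refine Finset.prod_congr rfl fun p hp => ?_
  have hpN : (p : ℤ) ∣ ((8 * N ^ 2 : ℕ) : ℤ) := by
    push_cast
    exact (dvd_pow (Int.natCast_dvd_natCast.2 (Nat.dvd_of_mem_primeFactors hp))
      two_ne_zero).mul_left _
  rw [chi_congr (Nat.prime_of_mem_primeFactors hp).pos h8 (hpN.trans h)]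

lemma Nw_congr {N n₁ n₂ : ℕ} (_hN : 1 ≤ N) (h1 : n₁ ∣ N) (h2 : n₂ ∣ N) (A e : ℕ) {B C B' C' : ℤ}
    (hB : ((8 * N ^ 2 : ℕ) : ℤ) ∣ B' - B) (hC : ((8 * N ^ 2 : ℕ) : ℤ) ∣ C' - C) :
    Nw n₁ n₂ A B' C' e = Nw n₁ n₂ A B C e := by
  rw [Nw, Nw]
  refine Finset.prod_congr rfl fun p hp => ?_
  have hpp := Nat.prime_of_mem_primeFactors hp
  have hpn : p ∣ N := by
    rcases (Nat.Prime.dvd_mul hpp).1 (Nat.dvd_of_mem_primeFactors hp) with h | h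
    · exact h.trans h1
    · exact h.trans h2
  have hpN : ((p ^ 2 : ℕ) : ℤ) ∣ ((8 * N ^ 2 : ℕ) : ℤ) :=
    Int.natCast_dvd_natCast.2 ((pow_dvd_pow_of_dvd hpn 2).mul_left _)
  have hpp2 : (p : ℤ) ∣ ((p ^ 2 : ℕ) : ℤ) := by
    push_cast; exact dvd_pow_self _ two_ne_zero
  rw [N2_congr hpp.pos A e (hpN.trans hB) (hpN.trans hC),
    N1_congr hpp.pos A e (hpp2.trans (hpN.trans hB)) (hpp2.trans (hpN.trans hC))]

lemma nrt_le (q : ℕ) (A B C : ℤ) : nrt q A B C ≤ q := by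
  rw [nrt]
  exact (Finset.card_filter_le _ _).trans (by rw [Finset.card_range])

lemma prod_pf_le {N : ℕ} (hN : 1 ≤ N) (s : Finset ℕ) (hs : s ⊆ N.primeFactors) :
    ∏ p ∈ s, (p : ℝ) ≤ N := by
  have h1 : ∏ p ∈ s, p ≤ N := by
    refine Nat.le_of_dvd (by omega) ?_
    exact (Finset.prod_dvd_prod_of_subset _ _ _ hs).trans (Nat.prod_primeFactors_dvd N)
  have h2 : ((∏ p ∈ s, p : ℕ) : ℝ) ≤ N := by exact_mod_cast h1
  rwa [Nat.cast_prod] at h2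

lemma abs_an_le {N : ℕ} (hN : 1 ≤ N) (n : ℕ) (Δ : ℤ) : |an N n Δ| ≤ N := by
  rw [an, Finset.abs_prod]
  refine le_trans (Finset.prod_le_prod (fun _ _ => abs_nonneg _) fun p hp => ?_)
    (prod_pf_le hN N.primeFactors (Finset.Subset.refl _))
  have hpp := Nat.prime_of_mem_primeFactors hp
  have hp2 : (2 : ℝ) ≤ p := by exact_mod_cast hpp.two_le
  split_ifs with h
  · rw [abs_neg, abs_one]; linarith
  · have hp0 : (0 : ℝ) < p := by linarith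
    have h1 : (-1 : ℝ) ≤ (chi p Δ : ℝ) ∧ (chi p Δ : ℝ) ≤ p := by
      rw [chi]
      split_ifs
      · constructor <;> push_cast <;> linarith
      · constructor <;> push_cast <;> linarith
      · have := nrt_le p 1 0 Δ
        have h3 : (nrt p 1 0 Δ : ℝ) ≤ p := by exact_mod_cast this
        have h4 : (0 : ℝ) ≤ (nrt p 1 0 Δ : ℝ) := Nat.cast_nonneg _
        constructor <;> push_cast <;> linarith
    have h2 : (chi p Δ : ℝ) / p ≤ 1 := by rw [div_le_one hp0]; exact h1.2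
    have h3 : (-1 : ℝ) ≤ (chi p Δ : ℝ) / p := by
      rw [le_div_iff₀ hp0]; linarith [h1.1]
    rw [abs_le]
    constructor <;> linarith

lemma N1_le {p : ℕ} (hp : 2 ≤ p) (A e : ℕ) (B C : ℤ) : N1 p A B C e ≤ p ^ 4 := by
  have h1 := nrt_le p A B C
  have h2 : N1 p A B C e ≤ 1 + p := by
    rw [N1]
    split_ifs <;> omega
  have h3 : 1 + p ≤ p ^ 2 := by nlinarith
  have h4 : p ^ 2 ≤ p ^ 4 := Nat.pow_le_pow_right (by omega) (by norm_num)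
  omega

lemma N2_le {p : ℕ} (hp : 2 ≤ p) (A e : ℕ) (B C : ℤ) : N2 p A B C e ≤ p ^ 4 := by
  have h1 := nrt_le p A B C
  have h1' := nrt_le p ((A / p : ℕ) : ℤ) B (p * C)
  have h1'' := nrt_le (p ^ 2) A B C
  have h2 : N2 p A B C e ≤ 1 + p + p + p ^ 2 := by
    rw [N2]
    split_ifs <;> omega
  have h3 : 1 + p ≤ p ^ 2 := by nlinarith
  have h4 : (1 + p) * (1 + p) ≤ p ^ 2 * p ^ 2 := Nat.mul_le_mul h3 h3
  calc N2 p A B C e ≤ 1 + p + p + p ^ 2 := h2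
    _ = (1 + p) * (1 + p) := by ring
    _ ≤ p ^ 2 * p ^ 2 := h4
    _ = p ^ 4 := by ring

lemma Nw_le {N n₁ n₂ : ℕ} (hN : 1 ≤ N) (h1 : n₁ ∣ N) (h2 : n₂ ∣ N) (A e : ℕ) (B C : ℤ) :
    (Nw n₁ n₂ A B C e : ℝ) ≤ (N : ℝ) ^ 4 := by
  have hs : (n₁ * n₂).primeFactors ⊆ N.primeFactors := by
    intro p hp
    have hpp := Nat.prime_of_mem_primeFactors hp
    refine Nat.mem_primeFactors.2 ⟨hpp, ?_, by omega⟩
    rcases (Nat.Prime.dvd_mul hpp).1 (Nat.dvd_of_mem_primeFactors hp) with h | h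
    · exact h.trans h1
    · exact h.trans h2
  have h3 : Nw n₁ n₂ A B C e ≤ ∏ p ∈ (n₁ * n₂).primeFactors, p ^ 4 := by
    rw [Nw]
    refine Finset.prod_le_prod' fun p hp => ?_
    have hpp := (Nat.prime_of_mem_primeFactors hp).two_le
    split_ifs
    · exact N2_le hpp _ _ _ _
    · exact N1_le hpp _ _ _ _
  calc (Nw n₁ n₂ A B C e : ℝ) ≤ ((∏ p ∈ (n₁ * n₂).primeFactors, p ^ 4 : ℕ) : ℝ) := by
        exact_mod_cast h3
    _ = (∏ p ∈ (n₁ * n₂).primeFactors, (p : ℝ)) ^ 4 := by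
        push_cast
        rw [Finset.prod_pow]
    _ ≤ (N : ℝ) ^ 4 := pow_le_pow_left₀ (Finset.prod_nonneg fun _ _ => Nat.cast_nonneg _)
        (prod_pf_le hN _ hs) 4

theorem pf_WDN : T_WDN := by
  intro N hN _ _ n₁ n₂ h1 h2
  refine ⟨?_, ?_, ?_, ?_⟩
  · intro e A B C
    have hd : ((8 * N ^ 2 : ℕ) : ℤ) ∣
        (4 * A * C - (B + (8 * N ^ 2 : ℕ)) ^ 2) - (4 * A * C - B ^ 2) :=
      ⟨-(2 * B + (8 * N ^ 2 : ℕ)), by ring⟩
    have hB : ((8 * N ^ 2 : ℕ) : ℤ) ∣ (B + (8 * N ^ 2 : ℕ)) - B := ⟨1, by ring⟩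
    have hg := good_congr hd
    rw [wN, wN]
    by_cases h : good N (4 * A * C - B ^ 2)
    · rw [if_pos h, if_pos (hg.2 h), an_congr n₁ hd, an_congr n₂ hd,
        Nw_congr hN h1 h2 A e hB (⟨0, by ring⟩ : ((8 * N ^ 2 : ℕ) : ℤ) ∣ C - C)]
    · rw [if_neg h, if_neg (fun h' => h (hg.1 h'))]
  · intro e A B C
    have hd : ((8 * N ^ 2 : ℕ) : ℤ) ∣
        (4 * A * (C + (8 * N ^ 2 : ℕ)) - B ^ 2) - (4 * A * C - B ^ 2) :=
      ⟨4 * A, by ring⟩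
    have hC : ((8 * N ^ 2 : ℕ) : ℤ) ∣ (C + (8 * N ^ 2 : ℕ)) - C := ⟨1, by ring⟩
    have hg := good_congr hd
    rw [wN, wN]
    by_cases h : good N (4 * A * C - B ^ 2)
    · rw [if_pos h, if_pos (hg.2 h), an_congr n₁ hd, an_congr n₂ hd,
        Nw_congr hN h1 h2 A e (⟨0, by ring⟩ : ((8 * N ^ 2 : ℕ) : ℤ) ∣ B - B) hC]
    · rw [if_neg h, if_neg (fun h' => h (hg.1 h'))]
  · intro e A B C
    have hd : (4 * A * (A + B + C) - (B + 2 * A) ^ 2 : ℤ) = 4 * A * C - B ^ 2 := by ring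
    have hw : Nw n₁ n₂ A (B + 2 * A) (A + B + C) e = Nw n₁ n₂ A B C e := by
      rw [Nw, Nw]
      refine Finset.prod_congr rfl fun p hp => ?_
      have hpp := (Nat.prime_of_mem_primeFactors hp).pos
      rw [N1_shift hpp, N2_shift hpp]
    rw [wN, wN, hd, hw]
  · intro e A B C
    have hN0 : (1 : ℝ) ≤ N := by exact_mod_cast hN
    have hN1 : (N : ℝ) ^ 6 ≤ (4 * N : ℝ) ^ 8 := by
      calc (N : ℝ) ^ 6 ≤ (4 * N : ℝ) ^ 6 := pow_le_pow_left₀ (by linarith) (by linarith) 6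
        _ ≤ (4 * N : ℝ) ^ 8 := pow_le_pow_right₀ (by linarith) (by norm_num)
    rw [wN]
    split_ifs
    · refine le_trans ?_ hN1
      rw [abs_mul, abs_mul, abs_of_nonneg (Nat.cast_nonneg (Nw n₁ n₂ A B C e) : (0 : ℝ) ≤ _)]
      calc |an N n₁ (4 * A * C - B ^ 2)| * |an N n₂ (4 * A * C - B ^ 2)| *
            (Nw n₁ n₂ A B C e : ℝ) ≤ (N : ℝ) * N * (N : ℝ) ^ 4 :=
            mul_le_mul (mul_le_mul (abs_an_le hN _ _) (abs_an_le hN _ _) (abs_nonneg _)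
              (Nat.cast_nonneg _)) (Nw_le hN h1 h2 A e B C) (Nat.cast_nonneg _) (by positivity)
        _ = (N : ℝ) ^ 6 := by ring
    · rw [abs_zero]; positivity

end Pool.Agent.H19.CN
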